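import Pool.Agent.V11134.RNA.Defs

/-!
# A certificate: a decision tree whose leaves name alternative structures
-/

set_option autoImplicit false

namespace Pool.Agent.V11134.RNA

/-- Decision trees: a leaf names an alternative structure, a node branches on the nucleotide at a
position. -/
inductive DT
  | l (k : ℕ)
  | n (v : ℕ) (a b c d : DT)

namespace Cert

open DT

/-- The list of arcs of the structure. -/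
def RL : List (ℕ × ℕ) :=
  [(1, 21), (3, 20), (4, 7), (8, 19), (10, 18), (11, 13), (14, 17)]

/-- The alternative structures. -/
def alts : List (List (ℕ × ℕ)) :=
  [[(2, 21), (3, 20), (4, 7), (8, 19), (10, 18), (11, 13), (14, 17)],
   [(1, 21), (3, 20), (5, 7), (8, 19), (10, 18), (11, 13), (14, 17)],
   [(1, 21), (3, 20), (6, 7), (8, 19), (10, 18), (11, 13), (14, 17)],
   [(1, 21), (3, 20), (4, 19), (7, 8), (10, 18), (11, 13), (14, 17)],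
   [(1, 21), (3, 20), (6, 19), (7, 9), (10, 18), (11, 13), (14, 17)],
   [(1, 21), (3, 20), (4, 7), (9, 19), (10, 18), (11, 13), (14, 17)],
   [(1, 21), (3, 20), (4, 7), (8, 9), (10, 18), (11, 13), (14, 17)],
   [(1, 21), (2, 19), (3, 9), (4, 7), (10, 18), (11, 13), (14, 17)],
   [(1, 21), (2, 8), (4, 7), (9, 20), (10, 18), (11, 13), (14, 17)],
   [(1, 21), (3, 20), (4, 9), (6, 8), (10, 18), (11, 13), (14, 17)],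
   [(1, 21), (3, 8), (4, 7), (10, 18), (11, 13), (14, 17), (19, 20)],
   [(1, 21), (3, 20), (4, 7), (5, 6), (8, 19), (10, 18), (11, 13), (14, 17)],
   [(1, 21), (3, 20), (4, 6), (8, 19), (10, 18), (11, 13), (14, 17)],
   [(1, 21), (2, 5), (6, 8), (9, 20), (10, 18), (11, 13), (14, 17)],
   [(1, 21), (3, 20), (4, 7), (8, 19), (9, 10), (11, 13), (14, 17)],
   [(1, 21), (3, 20), (4, 7), (8, 10), (11, 13), (14, 17), (18, 19)],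
   [(1, 21), (3, 20), (4, 7), (8, 19), (10, 18), (12, 13), (14, 17)],
   [(1, 21), (3, 20), (5, 19), (6, 18), (8, 12), (9, 11), (14, 17)],
   [(1, 21), (3, 20), (4, 7), (8, 19), (9, 11), (12, 18), (14, 17)],
   [(1, 21), (3, 20), (4, 7), (8, 19), (10, 18), (11, 12), (14, 17)],
   [(1, 21), (3, 20), (4, 7), (8, 19), (10, 11), (13, 18), (14, 17)],
   [(1, 21), (3, 20), (5, 19), (6, 18), (8, 13), (9, 12), (14, 17)],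
   [(1, 21), (3, 20), (4, 7), (8, 19), (10, 18), (11, 13), (15, 17)],
   [(1, 21), (3, 20), (4, 7), (8, 19), (10, 18), (11, 15), (12, 14)],
   [(1, 21), (3, 20), (4, 7), (8, 19), (9, 14), (11, 13), (15, 18)],
   [(1, 21), (3, 20), (4, 7), (8, 19), (10, 18), (11, 13), (14, 15)],
   [(1, 21), (3, 20), (4, 7), (8, 19), (10, 14), (11, 13), (17, 18)],
   [(1, 21), (3, 20), (4, 7), (8, 19), (10, 18), (11, 17), (13, 14)],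
   [(1, 21), (3, 20), (4, 7), (8, 19), (9, 17), (10, 15), (11, 13)],
   [(1, 21), (3, 20), (4, 7), (8, 19), (10, 18), (12, 17), (13, 15)],
   [(1, 21), (3, 20), (4, 7), (8, 19), (9, 13), (10, 12), (14, 17)],
   [(1, 21), (3, 20), (5, 19), (6, 18), (8, 15), (9, 14), (11, 13)],
   [(1, 21), (3, 20), (5, 19), (6, 18), (8, 17), (9, 15), (11, 13)],
   [(1, 21), (3, 20), (4, 7), (8, 19), (9, 18), (11, 13), (14, 17)],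
   [(1, 21), (3, 20), (4, 5), (8, 19), (10, 18), (11, 13), (14, 17)],
   [(1, 21), (2, 14), (3, 13), (4, 7), (8, 12), (9, 11), (15, 20)],
   [(1, 21), (3, 20), (5, 14), (6, 13), (8, 12), (9, 11), (15, 18)],
   [(1, 21), (3, 20), (4, 7), (8, 19), (10, 18), (11, 13), (16, 17)],
   [(1, 21), (3, 20), (6, 17), (7, 16), (8, 15), (9, 14), (11, 13)],
   [(1, 21), (3, 20), (4, 7), (8, 19), (10, 18), (11, 13), (14, 17), (15, 16)],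
   [(1, 21), (3, 20), (4, 7), (8, 19), (10, 18), (11, 13), (14, 16)],
   [(1, 21), (3, 20), (4, 10), (6, 9), (11, 19), (12, 14), (15, 18)],
   [(1, 21), (2, 12), (3, 11), (4, 10), (6, 9), (13, 20), (14, 17)],
   [(1, 21), (2, 7), (3, 5), (8, 19), (10, 18), (11, 13), (14, 17)],
   [(1, 21), (2, 4), (5, 20), (8, 19), (10, 18), (11, 13), (14, 17)],
   [(1, 21), (2, 9), (3, 5), (6, 8), (10, 18), (11, 13), (14, 17)],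
   [(1, 21), (2, 19), (3, 5), (6, 9), (10, 18), (11, 13), (14, 17)],
   [(1, 21), (3, 4), (7, 20), (8, 19), (10, 18), (11, 13), (14, 17)],
   [(1, 21), (2, 20), (4, 7), (8, 19), (10, 18), (11, 13), (14, 17)],
   [(1, 21), (2, 3), (4, 7), (8, 19), (10, 18), (11, 13), (14, 17)],
   [(1, 3), (4, 7), (8, 19), (10, 18), (11, 13), (14, 17), (20, 21)],
   [(1, 2), (3, 20), (4, 7), (8, 19), (10, 18), (11, 13), (14, 17)]]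

def t0 : DT :=
  n 4 (n 5 (l 1) (n 6 (l 2) (n 8 (l 3) (n 9 (l 4) (l 5) (l 6) (l 7)) (n 9 (l 8) (l 6) (l 5) (l
  9)) (l 10)) (l 11) (l 12)) (n 6 (l 2) (l 11) (n 8 (l 3) (n 9 (l 13) (l 5) (l 6) (l 7)) (n 9
  (l 4) (l 6) (l 5) (n 10 (l 14) (l 15) (n 11 (n 12 (l 16) (l 17) (l 18) (l 19)) (l 20) (n 12
  (l 21) (l 19) (l 16) (n 14 (n 15 (l 22) (l 23) (l 24) (l 25)) (l 26) (l 27) (n 15 (l 25) (l
  28) (l 29) (l 22)))) (n 12 (l 19) (l 30) (n 14 (n 15 (l 22) (l 31) (l 24) (l 25)) (l 26) (n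
  15 (l 32) (l 25) (l 22) (l 29)) (l 27)) (l 16))) (l 33))) (l 10)) (l 12)) (l 34)) (n 5 (n 6
  (n 8 (n 9 (l 5) (l 4) (n 10 (n 11 (n 12 (l 16) (l 21) (n 14 (l 27) (n 15 (l 24) (l 22) (l 25)
  (l 23)) (n 15 (l 29) (l 25) (l 22) (l 28)) (l 26)) (l 19)) (n 12 (l 18) (l 16) (l 19) (l 17))
  (n 12 (n 14 (n 15 (l 22) (l 32) (l 29) (l 25)) (n 15 (l 24) (l 22) (l 25) (l 31)) (l 27) (l
  26)) (l 19) (l 16) (l 30)) (l 20)) (l 14) (l 33) (l 15)) (l 6)) (l 3) (n 9 (l 8) (l 6) (l 5)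
  (n 10 (l 14) (l 15) (n 11 (n 12 (l 16) (n 14 (l 27) (l 26) (n 15 (l 35) (l 25) (l 22) (l 23))
  (n 15 (l 25) (l 28) (l 36) (l 22))) (l 18) (l 19)) (l 20) (n 12 (n 14 (n 15 (l 22) (n 16 (l
  37) (l 38) (l 39) (l 40)) (l 24) (l 25)) (l 26) (l 27) (n 15 (l 25) (l 23) (l 41) (l 22))) (l
  19) (l 16) (n 14 (n 15 (l 22) (l 23) (l 24) (l 25)) (l 26) (l 27) (n 15 (l 25) (l 28) (l 29)
  (l 22)))) (n 12 (l 19) (l 30) (l 42) (l 16))) (l 33))) (l 10)) (l 2) (l 12) (l 11)) (l 1) (l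
  34) (l 43)) (n 5 (l 44) (l 34) (l 1) (n 6 (l 11) (l 12) (l 2) (n 8 (n 9 (l 5) (l 9) (l 45) (l
  6)) (n 9 (l 46) (l 5) (l 6) (l 7)) (l 3) (l 10)))) (l 47)

def t1 : DT :=
  n 4 (n 5 (l 1) (n 6 (l 2) (n 8 (l 3) (n 9 (l 4) (l 5) (l 6) (n 10 (l 14) (n 11 (n 12 (l 16)
  (l 18) (l 17) (l 19)) (n 12 (l 21) (l 16) (l 19) (n 14 (n 15 (l 22) (l 24) (l 23) (l 25)) (l
  27) (l 26) (n 15 (l 25) (l 29) (l 28) (l 22)))) (l 20) (n 12 (l 19) (n 14 (n 15 (l 22) (l 24)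
  (l 31) (l 25)) (n 15 (l 32) (l 22) (l 25) (l 29)) (l 26) (l 27)) (l 30) (l 16))) (l 15) (l
  33))) (n 9 (l 13) (l 6) (l 5) (l 7)) (l 10)) (l 11) (l 12)) (n 6 (l 2) (l 11) (n 8 (l 3) (n 9
  (l 8) (l 5) (l 6) (l 9)) (n 9 (l 4) (l 6) (l 5) (l 7)) (l 10)) (l 12)) (l 34)) (n 5 (l 44) (l
  1) (l 34) (n 6 (l 11) (l 2) (l 12) (n 8 (n 9 (l 5) (l 45) (l 9) (l 6)) (l 3) (n 9 (l 46) (l
  6) (l 5) (l 7)) (l 10)))) (n 5 (n 6 (n 8 (n 9 (l 5) (n 10 (n 11 (n 12 (l 16) (n 14 (l 27) (n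
  15 (l 29) (l 22) (l 25) (l 28)) (n 15 (l 24) (l 25) (l 22) (l 23)) (l 26)) (l 21) (l 19)) (n
  12 (n 14 (n 15 (l 22) (l 29) (l 32) (l 25)) (l 27) (n 15 (l 24) (l 25) (l 22) (l 31)) (l 26))
  (l 16) (l 19) (l 30)) (n 12 (l 18) (l 19) (l 16) (l 17)) (l 20)) (l 33) (l 14) (l 15)) (l 4)
  (l 6)) (n 9 (l 8) (l 5) (l 6) (n 10 (l 14) (n 11 (n 12 (l 16) (l 18) (n 14 (l 27) (n 15 (l
  35) (l 22) (l 25) (l 23)) (l 26) (n 15 (l 25) (l 36) (l 28) (l 22))) (l 19)) (n 12 (n 14 (n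
  15 (l 22) (l 24) (n 16 (l 37) (l 39) (l 38) (l 40)) (l 25)) (l 27) (l 26) (n 15 (l 25) (l 41)
  (l 23) (l 22))) (l 16) (l 19) (n 14 (n 15 (l 22) (l 24) (l 23) (l 25)) (l 27) (l 26) (n 15 (l
  25) (l 29) (l 28) (l 22)))) (l 20) (n 12 (l 19) (l 42) (l 30) (l 16))) (l 15) (l 33))) (l 3)
  (l 10)) (l 12) (l 2) (l 11)) (l 34) (l 1) (l 43)) (l 47)

def t2 : DT :=
  n 4 (n 5 (l 1) (n 6 (l 2) (n 8 (l 3) (n 9 (l 4) (l 5) (l 6) (n 10 (l 14) (n 11 (n 12 (l 16)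
  (l 18) (l 17) (l 19)) (n 12 (l 21) (l 16) (l 19) (n 14 (n 15 (l 22) (l 24) (l 23) (l 25)) (l
  27) (l 26) (n 15 (l 25) (l 29) (l 28) (l 22)))) (l 20) (n 12 (l 19) (n 14 (n 15 (l 22) (l 24)
  (l 31) (l 25)) (n 15 (l 32) (l 22) (l 25) (l 29)) (l 26) (l 27)) (l 30) (l 16))) (l 15) (l
  33))) (l 10) (n 9 (l 6) (l 8) (n 10 (l 15) (l 14) (l 33) (n 11 (l 20) (n 12 (n 14 (l 26) (l
  27) (n 15 (l 28) (l 25) (l 22) (l 36)) (n 15 (l 25) (l 35) (l 23) (l 22))) (l 16) (l 19) (l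
  18)) (n 12 (l 30) (l 19) (l 16) (l 42)) (n 12 (l 19) (n 14 (l 26) (n 15 (n 16 (l 38) (l 37)
  (l 40) (l 39)) (l 22) (l 25) (l 24)) (n 15 (l 23) (l 25) (l 22) (l 41)) (l 27)) (n 14 (l 26)
  (n 15 (l 23) (l 22) (l 25) (l 24)) (n 15 (l 28) (l 25) (l 22) (l 29)) (l 27)) (l 16)))) (l
  5))) (l 11) (l 12)) (l 43) (l 34)) (n 5 (n 6 (n 8 (n 9 (l 5) (l 4) (l 7) (l 6)) (l 3) (l 10)
  (n 9 (l 6) (l 8) (l 9) (l 5))) (l 2) (l 12) (l 11)) (l 1) (l 34) (n 6 (l 11) (l 2) (l 12) (n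
  8 (n 9 (l 5) (l 13) (l 7) (l 6)) (l 3) (l 10) (n 9 (l 6) (l 4) (n 10 (l 15) (l 14) (l 33) (n
  11 (l 20) (n 12 (l 17) (l 16) (l 19) (l 18)) (n 12 (l 30) (l 19) (l 16) (n 14 (l 26) (n 15 (l
  31) (l 22) (l 25) (l 24)) (l 27) (n 15 (l 25) (l 32) (l 29) (l 22)))) (n 12 (l 19) (l 21) (n
  14 (l 26) (n 15 (l 23) (l 22) (l 25) (l 24)) (n 15 (l 28) (l 25) (l 22) (l 29)) (l 27)) (l
  16)))) (l 5))))) (l 47) (n 5 (l 34) (l 44) (n 6 (l 12) (l 11) (n 8 (n 9 (l 5) (l 46) (l 7) (l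
  6)) (n 9 (l 9) (l 5) (l 6) (l 45)) (l 10) (l 3)) (l 2)) (l 1))

def t3 : DT :=
  n 4 (n 5 (l 1) (l 44) (n 6 (l 2) (l 11) (n 8 (l 3) (n 9 (l 45) (l 5) (l 6) (l 9)) (l 10) (n 9
  (l 6) (l 46) (l 7) (l 5))) (l 12)) (l 34)) (n 5 (n 6 (n 8 (n 9 (l 5) (l 4) (n 10 (n 11 (n 12
  (l 16) (l 21) (n 14 (l 27) (n 15 (l 24) (l 22) (l 25) (l 23)) (n 15 (l 29) (l 25) (l 22) (l
  28)) (l 26)) (l 19)) (n 12 (l 18) (l 16) (l 19) (l 17)) (n 12 (n 14 (n 15 (l 22) (l 32) (l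
  29) (l 25)) (n 15 (l 24) (l 22) (l 25) (l 31)) (l 27) (l 26)) (l 19) (l 16) (l 30)) (l 20))
  (l 14) (l 33) (l 15)) (l 6)) (l 3) (l 10) (n 9 (l 6) (l 13) (l 7) (l 5))) (l 2) (l 12) (l
  11)) (l 1) (l 34) (n 6 (l 11) (l 2) (l 12) (n 8 (n 9 (l 5) (l 8) (l 9) (l 6)) (l 3) (l 10) (n
  9 (l 6) (l 4) (l 7) (l 5))))) (l 47) (n 5 (l 34) (n 6 (l 12) (n 8 (n 9 (l 5) (l 8) (n 10 (n
  11 (n 12 (l 16) (n 14 (l 27) (n 15 (l 24) (l 22) (l 25) (n 16 (l 39) (l 37) (l 40) (l 38)))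
  (n 15 (l 41) (l 25) (l 22) (l 23)) (l 26)) (n 14 (l 27) (n 15 (l 24) (l 22) (l 25) (l 23)) (n
  15 (l 29) (l 25) (l 22) (l 28)) (l 26)) (l 19)) (n 12 (l 18) (l 16) (l 19) (n 14 (n 15 (l 22)
  (l 35) (l 23) (l 25)) (l 27) (n 15 (l 36) (l 25) (l 22) (l 28)) (l 26))) (n 12 (l 42) (l 19)
  (l 16) (l 30)) (l 20)) (l 14) (l 33) (l 15)) (l 6)) (n 9 (n 10 (l 33) (n 11 (n 12 (l 16) (n
  14 (l 27) (n 15 (l 29) (l 22) (l 25) (l 32)) (l 26) (n 15 (l 25) (l 24) (l 31) (l 22))) (l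
  30) (l 19)) (n 12 (n 14 (n 15 (l 22) (l 29) (l 28) (l 25)) (l 27) (l 26) (n 15 (l 25) (l 24)
  (l 23) (l 22))) (l 16) (l 19) (l 21)) (l 20) (n 12 (l 19) (l 18) (l 17) (l 16))) (l 15) (l
  14)) (l 5) (l 6) (l 4)) (l 10) (l 3)) (l 11) (l 2)) (l 43) (l 1))

def t4 : DT :=
  n 4 (n 5 (l 1) (l 43) (n 6 (l 2) (l 11) (n 8 (l 3) (l 10) (n 9 (l 4) (l 6) (l 5) (n 10 (l 14)
  (l 15) (n 11 (n 12 (l 16) (l 17) (l 18) (l 19)) (l 20) (n 12 (l 21) (l 19) (l 16) (n 14 (n 15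
  (l 22) (l 23) (l 24) (l 25)) (l 26) (l 27) (n 15 (l 25) (l 28) (l 29) (l 22)))) (n 12 (l 19)
  (l 30) (n 14 (n 15 (l 22) (l 31) (l 24) (l 25)) (l 26) (n 15 (l 32) (l 25) (l 22) (l 29)) (l
  27)) (l 16))) (l 33))) (n 9 (l 6) (n 10 (l 15) (l 33) (l 14) (n 11 (l 20) (n 12 (l 30) (l 16)
  (l 19) (l 42)) (n 12 (n 14 (l 26) (n 15 (l 28) (l 22) (l 25) (l 36)) (l 27) (n 15 (l 25) (l
  23) (l 35) (l 22))) (l 19) (l 16) (l 18)) (n 12 (l 19) (n 14 (l 26) (n 15 (l 28) (l 22) (l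
  25) (l 29)) (n 15 (l 23) (l 25) (l 22) (l 24)) (l 27)) (n 14 (l 26) (n 15 (l 23) (l 22) (l
  25) (l 41)) (n 15 (n 16 (l 38) (l 40) (l 37) (l 39)) (l 25) (l 22) (l 24)) (l 27)) (l 16))))
  (l 8) (l 5))) (l 12)) (l 34)) (l 47) (n 5 (n 6 (n 8 (n 9 (l 5) (l 7) (l 4) (l 6)) (l 10) (l
  3) (n 9 (l 6) (l 9) (l 8) (l 5))) (l 12) (l 2) (l 11)) (l 34) (l 1) (n 6 (l 11) (l 12) (l 2)
  (n 8 (n 9 (l 5) (l 7) (l 13) (l 6)) (l 10) (l 3) (n 9 (l 6) (n 10 (l 15) (l 33) (l 14) (n 11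
  (l 20) (n 12 (l 30) (l 16) (l 19) (n 14 (l 26) (l 27) (n 15 (l 31) (l 25) (l 22) (l 24)) (n
  15 (l 25) (l 29) (l 32) (l 22)))) (n 12 (l 17) (l 19) (l 16) (l 18)) (n 12 (l 19) (n 14 (l
  26) (n 15 (l 28) (l 22) (l 25) (l 29)) (n 15 (l 23) (l 25) (l 22) (l 24)) (l 27)) (l 21) (l
  16)))) (l 4) (l 5))))) (n 5 (l 34) (n 6 (l 12) (n 8 (n 9 (l 5) (l 7) (l 46) (l 6)) (l 10) (n
  9 (l 9) (l 6) (l 5) (l 45)) (l 3)) (l 11) (l 2)) (l 44) (l 1))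

def t5 : DT :=
  n 4 (n 5 (l 1) (n 6 (l 2) (n 8 (l 3) (l 10) (n 9 (l 45) (l 6) (l 5) (l 9)) (n 9 (l 6) (l 7)
  (l 46) (l 5))) (l 11) (l 12)) (l 44) (l 34)) (l 47) (n 5 (n 6 (n 8 (n 9 (l 5) (n 10 (n 11 (n
  12 (l 16) (n 14 (l 27) (n 15 (l 29) (l 22) (l 25) (l 28)) (n 15 (l 24) (l 25) (l 22) (l 23))
  (l 26)) (l 21) (l 19)) (n 12 (n 14 (n 15 (l 22) (l 29) (l 32) (l 25)) (l 27) (n 15 (l 24) (l
  25) (l 22) (l 31)) (l 26)) (l 16) (l 19) (l 30)) (n 12 (l 18) (l 19) (l 16) (l 17)) (l 20))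
  (l 33) (l 14) (l 15)) (l 4) (l 6)) (l 10) (l 3) (n 9 (l 6) (l 7) (l 13) (l 5))) (l 12) (l 2)
  (l 11)) (l 34) (l 1) (n 6 (l 11) (l 12) (l 2) (n 8 (n 9 (l 5) (l 9) (l 8) (l 6)) (l 10) (l 3)
  (n 9 (l 6) (l 7) (l 4) (l 5))))) (n 5 (l 34) (l 43) (n 6 (l 12) (l 11) (n 8 (n 9 (l 5) (n 10
  (n 11 (n 12 (l 16) (n 14 (l 27) (n 15 (l 29) (l 22) (l 25) (l 28)) (n 15 (l 24) (l 25) (l 22)
  (l 23)) (l 26)) (n 14 (l 27) (n 15 (l 41) (l 22) (l 25) (l 23)) (n 15 (l 24) (l 25) (l 22) (n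
  16 (l 39) (l 40) (l 37) (l 38))) (l 26)) (l 19)) (n 12 (l 42) (l 16) (l 19) (l 30)) (n 12 (l
  18) (l 19) (l 16) (n 14 (n 15 (l 22) (l 23) (l 35) (l 25)) (n 15 (l 36) (l 22) (l 25) (l 28))
  (l 27) (l 26))) (l 20)) (l 33) (l 14) (l 15)) (l 8) (l 6)) (l 10) (n 9 (n 10 (l 33) (l 15) (n
  11 (n 12 (l 16) (l 30) (n 14 (l 27) (l 26) (n 15 (l 29) (l 25) (l 22) (l 32)) (n 15 (l 25) (l
  31) (l 24) (l 22))) (l 19)) (l 20) (n 12 (n 14 (n 15 (l 22) (l 28) (l 29) (l 25)) (l 26) (l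
  27) (n 15 (l 25) (l 23) (l 24) (l 22))) (l 19) (l 16) (l 21)) (n 12 (l 19) (l 17) (l 18) (l
  16))) (l 14)) (l 6) (l 5) (l 4)) (l 3)) (l 2)) (l 1))

def t6 : DT :=
  n 4 (l 47) (n 5 (l 43) (l 1) (l 34) (n 6 (l 11) (l 2) (l 12) (n 8 (l 10) (l 3) (n 9 (n 10 (l
  33) (l 15) (n 11 (n 12 (l 16) (l 30) (l 42) (l 19)) (l 20) (n 12 (n 14 (n 15 (l 22) (l 28) (l
  29) (l 25)) (l 26) (l 27) (n 15 (l 25) (l 23) (l 24) (l 22))) (l 19) (l 16) (n 14 (n 15 (l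
  22) (l 23) (l 41) (l 25)) (l 26) (l 27) (n 15 (l 25) (n 16 (l 40) (l 38) (l 39) (l 37)) (l
  24) (l 22)))) (n 12 (l 19) (n 14 (n 15 (l 22) (l 28) (l 36) (l 25)) (l 26) (n 15 (l 23) (l
  25) (l 22) (l 35)) (l 27)) (l 18) (l 16))) (l 14)) (l 6) (l 5) (l 8)) (n 9 (l 6) (l 4) (n 10
  (l 15) (l 14) (l 33) (n 11 (l 20) (n 12 (l 17) (l 16) (l 19) (l 18)) (n 12 (l 30) (l 19) (l
  16) (n 14 (l 26) (n 15 (l 31) (l 22) (l 25) (l 24)) (l 27) (n 15 (l 25) (l 32) (l 29) (l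
  22)))) (n 12 (l 19) (l 21) (n 14 (l 26) (n 15 (l 23) (l 22) (l 25) (l 24)) (n 15 (l 28) (l
  25) (l 22) (l 29)) (l 27)) (l 16)))) (l 5))))) (n 5 (n 6 (n 8 (l 10) (n 9 (l 7) (l 5) (l 6)
  (l 46)) (l 3) (n 9 (l 6) (l 9) (l 45) (l 5))) (l 12) (l 2) (l 11)) (l 34) (l 1) (l 44)) (n 5
  (l 34) (n 6 (l 12) (n 8 (l 10) (n 9 (l 7) (l 5) (l 6) (l 4)) (n 9 (l 9) (l 6) (l 5) (l 8)) (l
  3)) (l 11) (l 2)) (n 6 (l 12) (l 11) (n 8 (l 10) (n 9 (l 7) (l 5) (l 6) (l 13)) (n 9 (n 10 (l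
  33) (l 15) (n 11 (n 12 (l 16) (l 30) (n 14 (l 27) (l 26) (n 15 (l 29) (l 25) (l 22) (l 32))
  (n 15 (l 25) (l 31) (l 24) (l 22))) (l 19)) (l 20) (n 12 (n 14 (n 15 (l 22) (l 28) (l 29) (l
  25)) (l 26) (l 27) (n 15 (l 25) (l 23) (l 24) (l 22))) (l 19) (l 16) (l 21)) (n 12 (l 19) (l
  17) (l 18) (l 16))) (l 14)) (l 6) (l 5) (l 4)) (l 3)) (l 2)) (l 1))

def t7 : DT :=
  n 4 (l 47) (n 5 (n 6 (n 8 (l 10) (l 3) (n 9 (l 7) (l 6) (l 5) (l 46)) (n 9 (l 6) (l 45) (l 9)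
  (l 5))) (l 2) (l 12) (l 11)) (l 1) (l 34) (l 44)) (n 5 (l 43) (l 34) (l 1) (n 6 (l 11) (l 12)
  (l 2) (n 8 (l 10) (n 9 (n 10 (l 33) (n 11 (n 12 (l 16) (l 42) (l 30) (l 19)) (n 12 (n 14 (n
  15 (l 22) (l 29) (l 28) (l 25)) (l 27) (l 26) (n 15 (l 25) (l 24) (l 23) (l 22))) (l 16) (l
  19) (n 14 (n 15 (l 22) (l 41) (l 23) (l 25)) (l 27) (l 26) (n 15 (l 25) (l 24) (n 16 (l 40)
  (l 39) (l 38) (l 37)) (l 22)))) (l 20) (n 12 (l 19) (l 18) (n 14 (n 15 (l 22) (l 36) (l 28)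
  (l 25)) (n 15 (l 23) (l 22) (l 25) (l 35)) (l 26) (l 27)) (l 16))) (l 15) (l 14)) (l 5) (l 6)
  (l 8)) (l 3) (n 9 (l 6) (n 10 (l 15) (l 33) (l 14) (n 11 (l 20) (n 12 (l 30) (l 16) (l 19) (n
  14 (l 26) (l 27) (n 15 (l 31) (l 25) (l 22) (l 24)) (n 15 (l 25) (l 29) (l 32) (l 22)))) (n
  12 (l 17) (l 19) (l 16) (l 18)) (n 12 (l 19) (n 14 (l 26) (n 15 (l 28) (l 22) (l 25) (l 29))
  (n 15 (l 23) (l 25) (l 22) (l 24)) (l 27)) (l 21) (l 16)))) (l 4) (l 5))))) (n 5 (l 34) (n 6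
  (l 12) (n 8 (l 10) (n 9 (n 10 (l 33) (n 11 (n 12 (l 16) (n 14 (l 27) (n 15 (l 29) (l 22) (l
  25) (l 32)) (l 26) (n 15 (l 25) (l 24) (l 31) (l 22))) (l 30) (l 19)) (n 12 (n 14 (n 15 (l
  22) (l 29) (l 28) (l 25)) (l 27) (l 26) (n 15 (l 25) (l 24) (l 23) (l 22))) (l 16) (l 19) (l
  21)) (l 20) (n 12 (l 19) (l 18) (l 17) (l 16))) (l 15) (l 14)) (l 5) (l 6) (l 4)) (n 9 (l 7)
  (l 6) (l 5) (l 13)) (l 3)) (l 11) (l 2)) (n 6 (l 12) (l 11) (n 8 (l 10) (n 9 (l 9) (l 5) (l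
  6) (l 8)) (n 9 (l 7) (l 6) (l 5) (l 4)) (l 3)) (l 2)) (l 1))

def top : DT :=
  n 1 (n 2 (l 0) (n 3 t0 (l 48) (l 49) (l 50)) (n 3 t1 (l 49) (l 48) (l 50)) (l 51)) (n 2 (n 3
  (l 48) t2 (l 50) (l 49)) (l 0) (l 51) (n 3 (l 49) t3 (l 50) (l 48))) (n 2 (n 3 (l 48) (l 50)
  t4 (l 49)) (l 51) (l 0) (n 3 (l 49) (l 50) t5 (l 48))) (n 2 (l 51) (n 3 (l 50) (l 48) (l 49)
  t6) (n 3 (l 50) (l 49) (l 48) t7) (l 0))

/-- The certificate. -/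
def cert : DT := top

end Cert

end Pool.Agent.V11134.RNA
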