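import Pool.Agent.V11134.RNA.Cert

/-!
# The checker and its soundness
-/

set_option autoImplicit false

namespace Pool.Agent.V11134.RNA

/-- The complementary nucleotide. -/
def Nuc.comp : Nuc → Nuc
  | .A => .U
  | .U => .A
  | .G => .C
  | .C => .G

/-- Boolean version of `Pairs`. -/
def pairsB : Nuc → Nuc → Bool
  | .A, .U => true
  | .U, .A => true
  | .G, .C => true
  | .C, .G => true
  | _, _ => false

theorem Pairs_of_pairsB {x y : Nuc} (h : pairsB x y = true) : Pairs x y := by
  cases x <;> cases y <;> simp_all [pairsB, Pairs]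

theorem eq_comp_of_Pairs {x y : Nuc} (h : Pairs x y) : y = x.comp := by
  cases x <;> cases y <;> simp_all [Pairs, Nuc.comp]

/-- Membership of a pair in a list. -/
def memP (a : ℕ × ℕ) : List (ℕ × ℕ) → Bool
  | [] => false
  | b :: l => (Nat.beq a.1 b.1 && Nat.beq a.2 b.2) || memP a l

theorem mem_of_memP {a : ℕ × ℕ} : ∀ {l : List (ℕ × ℕ)}, memP a l = true → a ∈ l
  | [], h => by simp [memP] at h
  | b :: l, h => by
    simp only [memP, Bool.or_eq_true, Bool.and_eq_true] at h
    rcases h with ⟨h1, h2⟩ | h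
    · have h3 := Nat.eq_of_beq_eq_true h1
      have h4 := Nat.eq_of_beq_eq_true h2
      rw [show a = b from Prod.ext h3 h4]
      exact List.mem_cons_self
    · exact List.mem_cons_of_mem _ (mem_of_memP h)

/-- Look up a position in a partial assignment. -/
def look (i : ℕ) : List (ℕ × Nuc) → Option Nuc
  | [] => none
  | (j, x) :: l => if Nat.beq i j = true then some x else look i l

theorem mem_of_look {i : ℕ} {x : Nuc} : ∀ {l : List (ℕ × Nuc)}, look i l = some x → (i, x) ∈ l
  | [], h => by simp [look] at h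
  | (j, y) :: l, h => by
    simp only [look] at h
    split_ifs at h with h1
    · have h2 := Nat.eq_of_beq_eq_true h1
      subst h2
      simp only [Option.some.injEq] at h
      subst h
      exact List.mem_cons_self
    · exact List.mem_cons_of_mem _ (mem_of_look h)

/-- The partner of the left end of an arc. -/
def mate (i : ℕ) : List (ℕ × ℕ) → Option ℕ
  | [] => none
  | (j, k) :: l => if Nat.beq i j = true then some k else mate i l

theorem mem_of_mate {i k : ℕ} : ∀ {l : List (ℕ × ℕ)}, mate i l = some k → (i, k) ∈ l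
  | [], h => by simp [mate] at h
  | (j, y) :: l, h => by
    simp only [mate] at h
    split_ifs at h with h1
    · have h2 := Nat.eq_of_beq_eq_true h1
      subst h2
      simp only [Option.some.injEq] at h
      subst h
      exact List.mem_cons_self
    · exact List.mem_cons_of_mem _ (mem_of_mate h)

/-- The pair `a` is an arc of the structure or a complementary pair of assigned positions. -/
def okPair (R : List (ℕ × ℕ)) (π : List (ℕ × Nuc)) (a : ℕ × ℕ) : Bool :=
  memP a R || match look a.1 π, look a.2 π with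
    | some x, some y => pairsB x y
    | _, _ => false

/-- Extend a partial assignment. -/
def ext (R : List (ℕ × ℕ)) (v : ℕ) (x : Nuc) (π : List (ℕ × Nuc)) : List (ℕ × Nuc) :=
  match mate v R with
  | none => (v, x) :: π
  | some w => (v, x) :: (w, x.comp) :: π

/-- All pairs of a list are fine. -/
def allOk (R : List (ℕ × ℕ)) (π : List (ℕ × Nuc)) : List (ℕ × ℕ) → Bool
  | [] => true
  | a :: l => okPair R π a && allOk R π l

/-- The `k`-th entry of a list of lists. -/
def nth : List (List (ℕ × ℕ)) → ℕ → Option (List (ℕ × ℕ))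
  | [], _ => none
  | a :: l, k => if Nat.beq k 0 = true then some a else nth l (k - 1)

theorem mem_of_nth {a : List (ℕ × ℕ)} : ∀ {l : List (List (ℕ × ℕ))} {k : ℕ},
    nth l k = some a → a ∈ l
  | [], k, h => by simp [nth] at h
  | b :: l, k, h => by
    simp only [nth] at h
    split_ifs at h with h1
    · simp only [Option.some.injEq] at h
      subst h
      exact List.mem_cons_self
    · exact List.mem_cons_of_mem _ (mem_of_nth h)

/-- The checker. -/
def check (R : List (ℕ × ℕ)) (alts : List (List (ℕ × ℕ))) : DT → List (ℕ × Nuc) → Bool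
  | .l k, π => match nth alts k with
    | some a => allOk R π a
    | none => false
  | .n v a b c d, π => check R alts a (ext R v .A π) && check R alts b (ext R v .C π) &&
      check R alts c (ext R v .G π) && check R alts d (ext R v .U π)

theorem okPair_sound {S : ℕ → Nuc} {R : List (ℕ × ℕ)} (hR : ∀ a ∈ R, Pairs (S a.1) (S a.2))
    {π : List (ℕ × Nuc)} (hπ : ∀ p ∈ π, S p.1 = p.2) {a : ℕ × ℕ} (h : okPair R π a = true) :
    Pairs (S a.1) (S a.2) := by
  unfold okPair at h
  rw [Bool.or_eq_true] at h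
  rcases h with h | h
  · exact hR _ (mem_of_memP h)
  · rcases h1 : look a.1 π with _ | x
    · simp [h1] at h
    · rcases h2 : look a.2 π with _ | y
      · simp [h1, h2] at h
      · simp only [h1, h2] at h
        have h3 := hπ _ (mem_of_look h1)
        have h4 := hπ _ (mem_of_look h2)
        simp only at h3 h4
        rw [h3, h4]
        exact Pairs_of_pairsB h

theorem allOk_sound {S : ℕ → Nuc} {R : List (ℕ × ℕ)} (hR : ∀ a ∈ R, Pairs (S a.1) (S a.2))
    {π : List (ℕ × Nuc)} (hπ : ∀ p ∈ π, S p.1 = p.2) : ∀ {l : List (ℕ × ℕ)},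
    allOk R π l = true → ∀ a ∈ l, Pairs (S a.1) (S a.2)
  | [], _, a, ha => by simp at ha
  | b :: l, h, a, ha => by
    simp only [allOk, Bool.and_eq_true] at h
    rcases List.mem_cons.1 ha with rfl | ha
    · exact okPair_sound hR hπ h.1
    · exact allOk_sound hR hπ h.2 a ha

theorem ext_sound {S : ℕ → Nuc} {R : List (ℕ × ℕ)} (hR : ∀ a ∈ R, Pairs (S a.1) (S a.2))
    {π : List (ℕ × Nuc)} (hπ : ∀ p ∈ π, S p.1 = p.2) {v : ℕ} {x : Nuc} (hx : S v = x) :
    ∀ p ∈ ext R v x π, S p.1 = p.2 := by
  intro p hp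
  unfold ext at hp
  rcases h : mate v R with _ | w
  · rw [h] at hp
    rcases List.mem_cons.1 hp with rfl | hp
    · exact hx
    · exact hπ p hp
  · rw [h] at hp
    rcases List.mem_cons.1 hp with rfl | hp
    · exact hx
    · rcases List.mem_cons.1 hp with rfl | hp
      · have h1 := hR _ (mem_of_mate h)
        simp only at h1 ⊢
        rw [hx] at h1
        exact eq_comp_of_Pairs h1
      · exact hπ p hp

theorem check_sound {S : ℕ → Nuc} {R : List (ℕ × ℕ)} (hR : ∀ a ∈ R, Pairs (S a.1) (S a.2))
    {alts : List (List (ℕ × ℕ))} : ∀ (t : DT) (π : List (ℕ × Nuc)), (∀ p ∈ π, S p.1 = p.2) →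
    check R alts t π = true → ∃ a ∈ alts, ∀ p ∈ a, Pairs (S p.1) (S p.2) := by
  intro t
  induction t with
  | l k =>
    intro π hπ h
    simp only [check] at h
    rcases h1 : nth alts k with _ | a
    · rw [h1] at h
      exact absurd h (by simp)
    · rw [h1] at h
      exact ⟨a, mem_of_nth h1, allOk_sound hR hπ h⟩
  | n v a b c d iha ihb ihc ihd =>
    intro π hπ h
    simp only [check, Bool.and_eq_true] at h
    obtain ⟨⟨⟨h1, h2⟩, h3⟩, h4⟩ := h
    rcases hx : S v with _ | _ | _ | _
    · exact iha _ (ext_sound hR hπ hx) h1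
    · exact ihb _ (ext_sound hR hπ hx) h2
    · exact ihc _ (ext_sound hR hπ hx) h3
    · exact ihd _ (ext_sound hR hπ hx) h4

/-- Boolean check that an alternative is a structure with at least seven arcs, different from `R`. -/
def goodAlt (n : ℕ) (R : List (ℕ × ℕ)) (m : ℕ) (l : List (ℕ × ℕ)) : Bool :=
  l.all (fun a => Nat.ble 1 a.1 && Nat.ble (a.1 + 1) a.2 && Nat.ble a.2 n) &&
  l.all (fun a => l.all (fun b => (Nat.beq a.1 b.1 && Nat.beq a.2 b.2) ||
    (!Nat.beq a.1 b.1 && !Nat.beq a.1 b.2 && !Nat.beq a.2 b.1 && !Nat.beq a.2 b.2))) &&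
  l.all (fun a => l.all (fun b => !(Nat.ble (a.1 + 1) b.1 && Nat.ble (b.1 + 1) a.2 &&
    Nat.ble (a.2 + 1) b.2))) &&
  Nat.ble m l.toFinset.card && l.any (fun a => !memP a R)

theorem memP_of_mem {a : ℕ × ℕ} : ∀ {l : List (ℕ × ℕ)}, a ∈ l → memP a l = true
  | b :: l, h => by
    simp only [memP, Bool.or_eq_true, Bool.and_eq_true]
    rcases List.mem_cons.1 h with rfl | h
    · left
      exact ⟨Nat.beq_refl _, Nat.beq_refl _⟩
    · right
      exact memP_of_mem h

theorem goodAlt_sound {n m : ℕ} {R l : List (ℕ × ℕ)} (h : goodAlt n R m l = true) :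
    IsStructure n l.toFinset ∧ m ≤ l.toFinset.card ∧ l.toFinset ≠ R.toFinset := by
  simp only [goodAlt, Bool.and_eq_true, List.all_eq_true, List.any_eq_true, Bool.or_eq_true,
    Bool.not_eq_true', Nat.ble_eq] at h
  obtain ⟨⟨⟨⟨h1, h2⟩, h3⟩, h4⟩, a, ha, haR⟩ := h
  refine ⟨⟨?_, ?_, ?_⟩, h4, ?_⟩
  · intro a ha
    rw [List.mem_toFinset] at ha
    have := h1 a ha
    exact ⟨this.1.1, this.1.2, this.2⟩
  · intro a ha b hb hab
    rw [List.mem_toFinset] at ha hb
    have := h2 a ha b hb
    rcases this with h5 | h5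
    · exact absurd (Prod.ext (Nat.eq_of_beq_eq_true h5.1) (Nat.eq_of_beq_eq_true h5.2)) hab
    · obtain ⟨⟨⟨h6, h7⟩, h8⟩, h9⟩ := h5
      exact ⟨Nat.ne_of_beq_eq_false h6, Nat.ne_of_beq_eq_false h7, Nat.ne_of_beq_eq_false h8,
        Nat.ne_of_beq_eq_false h9⟩
  · intro a ha b hb
    rw [List.mem_toFinset] at ha hb
    have := h3 a ha b hb
    rintro ⟨h5, h6, h7⟩
    simp only [Bool.and_eq_false_iff] at this
    rcases this with (h8 | h8) | h8
    · have := Nat.ble_eq_true_of_le (show a.1 + 1 ≤ b.1 from h5)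
      rw [this] at h8
      exact absurd h8 (by simp)
    · have := Nat.ble_eq_true_of_le (show b.1 + 1 ≤ a.2 from h6)
      rw [this] at h8
      exact absurd h8 (by simp)
    · have := Nat.ble_eq_true_of_le (show a.2 + 1 ≤ b.2 from h7)
      rw [this] at h8
      exact absurd h8 (by simp)
  · intro heq
    have h5 : a ∈ l.toFinset := List.mem_toFinset.2 ha
    rw [heq, List.mem_toFinset] at h5
    rw [memP_of_mem h5] at haR
    exact absurd haR (by simp)

end Pool.Agent.V11134.RNA
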