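import Mathlib

/-!
# Secondary structures, trees and designs
-/

set_option autoImplicit false

namespace Pool.Agent.V11134.RNA

/-- The four nucleotides. -/
inductive Nuc
  | A | C | G | U
  deriving DecidableEq, Fintype

/-- The two nucleotides are `{G, C}` or `{A, U}`. -/
def Pairs : Nuc → Nuc → Prop
  | .A, .U => True
  | .U, .A => True
  | .G, .C => True
  | .C, .G => True
  | _, _ => False

/-- A secondary structure on the positions `1, …, n`: a set of arcs `(i, j)`, `1 ≤ i < j ≤ n`, no two of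
which share an endpoint or cross. -/
def IsStructure (n : ℕ) (R : Finset (ℕ × ℕ)) : Prop :=
  (∀ a ∈ R, 1 ≤ a.1 ∧ a.1 < a.2 ∧ a.2 ≤ n) ∧
  (∀ a ∈ R, ∀ b ∈ R, a ≠ b → a.1 ≠ b.1 ∧ a.1 ≠ b.2 ∧ a.2 ≠ b.1 ∧ a.2 ≠ b.2) ∧
  (∀ a ∈ R, ∀ b ∈ R, ¬ (a.1 < b.1 ∧ b.1 < a.2 ∧ a.2 < b.2))

/-- The unpaired positions. -/
def unpaired (n : ℕ) (R : Finset (ℕ × ℕ)) : Finset ℕ :=
  (Finset.Icc 1 n).filter (fun k => ∀ a ∈ R, a.1 ≠ k ∧ a.2 ≠ k)

/-- The vertices of the tree: the arcs `(i, j)` and, for the unpaired positions `k`, the pairs `(k, k)`. -/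
def verts (n : ℕ) (R : Finset (ℕ × ℕ)) : Finset (ℕ × ℕ) :=
  R ∪ (unpaired n R).image (fun k => (k, k))

/-- The children of the arc `a`: the vertices `v` strictly enclosed by `a` such that every arc strictly
enclosing `v` is `a` or encloses `a`, that is, `a` is the innermost arc strictly enclosing `v`. -/
def children (n : ℕ) (R : Finset (ℕ × ℕ)) (a : ℕ × ℕ) : Finset (ℕ × ℕ) :=
  (verts n R).filter (fun v => a.1 < v.1 ∧ v.2 < a.2 ∧
    ∀ b ∈ R, b.1 < v.1 → v.2 < b.2 → b.1 ≤ a.1 ∧ a.2 ≤ b.2)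

/-- The tree is binary: every vertex has at most two children (unpaired positions have none). -/
def Binary (n : ℕ) (R : Finset (ℕ × ℕ)) : Prop := ∀ a ∈ R, (children n R a).card ≤ 2

/-- The tree is unsaturated: some position is unpaired. -/
def Unsaturated (n : ℕ) (R : Finset (ℕ × ℕ)) : Prop := (unpaired n R).Nonempty

/-- `R` is an arc set for the sequence `S` (only the values of `S` at `1, …, n` matter). -/
def IsArcSet (n : ℕ) (S : ℕ → Nuc) (R : Finset (ℕ × ℕ)) : Prop :=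
  IsStructure n R ∧ ∀ a ∈ R, Pairs (S a.1) (S a.2)

/-- `R` is designable: it is the unique arc set of maximum size of some sequence `S`. -/
def Designable (n : ℕ) (R : Finset (ℕ × ℕ)) : Prop :=
  ∃ S : ℕ → Nuc, IsArcSet n S R ∧ ∀ R', IsArcSet n S R' → R' ≠ R → R'.card < R.card

end Pool.Agent.V11134.RNA
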